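import Pool.Agent.H21.MT.SieveR
import Pool.Agent.H21.MT.Pz

/-!
# BINS: a positive proportion of disjoint blocks contains primes

`m` disjoint blocks of `2^(10 m)` shifts with admissible union: for infinitely many `N ≡ b₀ (mod L)` at least
`10^(-23) m` of the blocks `N + B_j` contain a prime, and all other numbers in `[N - D, N + D]` are composite.
-/

namespace Pool.Agent.H30.CP

open Finset Filter Pool.Agent.H21.MT

/-- Killing finitely many positions, in a given residue class modulo `L`. -/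
theorem killL (L c₀ : ℕ) (hL : 0 < L) (K H : Finset ℕ) (hKH : Disjoint K H)
    (hH : ∀ a ∈ H, Nat.Coprime (c₀ + a) L) : ∃ Q b₀ : ℕ, 0 < Q ∧ L ∣ Q ∧ b₀ ≡ c₀ [MOD L] ∧
    (∀ a ∈ H, Nat.Coprime (b₀ + a) Q) ∧
    ∀ N : ℕ, Q < N → N ≡ b₀ [MOD Q] → ∀ g ∈ K, ¬ (N + g).Prime := by
  classical
  induction K using Finset.induction_on with
  | empty => exact ⟨L, c₀, hL, dvd_rfl, Nat.ModEq.refl _, hH, by simp⟩
  | insert g K hgK ih =>
    rw [Finset.disjoint_insert_left] at hKH
    obtain ⟨Q, b₀, hQ, hLQ, hbL, hcop, hcomp⟩ := ih hKH.2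
    -- a new prime
    obtain ⟨q, hq, hqp⟩ := Nat.exists_infinite_primes (Q + g + H.sup id + 1)
    have hqQ : Nat.Coprime Q q := by
      rw [Nat.coprime_comm, Nat.Prime.coprime_iff_not_dvd hqp]
      intro hd
      exact absurd (Nat.le_of_dvd hQ hd) (by omega)
    obtain ⟨b, hb1, hb2⟩ := Nat.chineseRemainder hqQ b₀ (q - g)
    refine ⟨Q * q, b, Nat.mul_pos hQ hqp.pos, hLQ.mul_right q, (hb1.of_dvd hLQ).trans hbL, ?_, ?_⟩
    · intro a ha
      apply Nat.Coprime.mul_right
      · have h5 : b + a ≡ b₀ + a [MOD Q] := hb1.add_right a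
        rw [Nat.Coprime, h5.gcd_eq]
        exact hcop a ha
      · have haH : a ≤ H.sup id := Finset.le_sup (f := id) ha
        have hag : a ≠ g := fun h => hKH.1 (h ▸ ha)
        rw [Nat.coprime_comm, Nat.Prime.coprime_iff_not_dvd hqp]
        intro hdiv
        have h5 : b + a ≡ (q - g) + a [MOD q] := hb2.add_right a
        have h6 : q ∣ (q - g) + a := (h5.dvd_iff dvd_rfl).1 hdiv
        rcases lt_or_gt_of_ne hag with h7 | h7
        · have h8 : (q - g) + a < q := by omega
          have h9 : 0 < (q - g) + a := by omega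
          exact absurd (Nat.le_of_dvd h9 h6) (by omega)
        · have h8 : (q - g) + a = q + (a - g) := by omega
          rw [h8] at h6
          have h6' : q ∣ a - g := (Nat.dvd_add_right dvd_rfl).1 h6
          have h9 : 0 < a - g := by omega
          exact absurd (Nat.le_of_dvd h9 h6') (by omega)
    · intro N hN hNb g' hg'
      rw [Finset.mem_insert] at hg'
      have hQ1 : Q < N := lt_of_le_of_lt (Nat.le_mul_of_pos_right Q hqp.pos) hN
      have hq1 : q < N := lt_of_le_of_lt (Nat.le_mul_of_pos_left q hQ) hN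
      rcases hg' with rfl | hg'
      · have h5 : N ≡ q - g' [MOD q] := (hNb.of_dvd (Dvd.intro_left _ rfl)).trans hb2
        have h6 : N + g' ≡ (q - g') + g' [MOD q] := h5.add_right g'
        have h7 : (q - g') + g' = q := by omega
        rw [h7] at h6
        have h8 : q ∣ N + g' := (h6.dvd_iff dvd_rfl).2 dvd_rfl
        intro hp
        have h9 := (Nat.prime_dvd_prime_iff_eq hqp hp).1 h8
        omega
      · exact hcomp N hQ1 ((hNb.of_dvd (Dvd.intro _ rfl)).trans hb1) g' hg'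

/-- the weights -/
private noncomputable def bta (m l : ℕ) : ℝ := 1 / (10 * m * 2 ^ l * ((l : ℝ) + 1))

private theorem bta_pos {m l : ℕ} (hm : 0 < m) : 0 < bta m l := by
  unfold bta
  have : (0 : ℝ) < m := by exact_mod_cast hm
  positivity

private theorem bta_mul {m l : ℕ} (hm : 0 < m) : (2 : ℝ) ^ l * bta m l * ((l : ℝ) + 1) = 1 / (10 * m) := by
  unfold bta
  have : (0 : ℝ) < m := by exact_mod_cast hm
  field_simp

open Classical in
/-- natural numbers version -/
theorem bins_nat {ι : Type} [Fintype ι] [DecidableEq ι] [Nonempty ι] (B : ι → Finset ℕ)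
    (hcard : ∀ j, (B j).card = 2 ^ (10 * Fintype.card ι))
    (hdisj : ∀ i j, i ≠ j → Disjoint (B i) (B j))
    (hadm : ∀ p : ℕ, p.Prime → ∃ a : ℕ, ∀ j, ∀ h ∈ B j, ¬ p ∣ a + h)
    (L c₀ : ℕ) (hL : 0 < L) (hcop : ∀ j, ∀ h ∈ B j, Nat.Coprime (c₀ + h) L) (D N0 : ℕ) :
    ∃ N : ℕ, N0 < N ∧ N ≡ c₀ [MOD L] ∧ (∀ g ≤ D, (∀ j, g ∉ B j) → ¬ (N + g).Prime) ∧
      (1 / 10 ^ 23 : ℝ) * Fintype.card ι ≤
        ((univ.filter (fun j : ι => ∃ a ∈ B j, (N + a).Prime)).card : ℝ) := by
  set m : ℕ := Fintype.card ι with hmdef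
  have hm : 0 < m := Fintype.card_pos
  set l : ℕ := 10 * m with hl
  have hmR : (1 : ℝ) ≤ m := by exact_mod_cast hm
  let I : Type := Σ j : ι, {h // h ∈ B j}
  have hne : Nonempty I := by
    obtain ⟨j⟩ := (inferInstance : Nonempty ι)
    have h0 : (B j).Nonempty := by
      rw [← card_pos, hcard]
      positivity
    obtain ⟨a, ha⟩ := h0
    exact ⟨⟨j, ⟨a, ha⟩⟩⟩
  let hh : I → ℕ := fun i => i.2.val
  have hinj : Function.Injective hh := by
    rintro ⟨j, a, ha⟩ ⟨j', a', ha'⟩ h
    have h1 : a = a' := h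
    subst h1
    have h2 : j = j' := by
      by_contra h3
      have h4 := hdisj j j' h3
      exact (disjoint_left.1 h4 ha) ha'
    subst h2
    rfl
  obtain ⟨Q, b₀, hQ, hLQ, hbL, hcopQ, hkill⟩ := killL L c₀ hL
    ((Finset.range (D + 1)).filter (fun g => ∀ j, g ∉ B j)) (univ.biUnion B) (by
      rw [Finset.disjoint_left]
      intro g hg hg'
      obtain ⟨j, _, hj⟩ := Finset.mem_biUnion.1 hg'
      exact (Finset.mem_filter.1 hg).2 j hj) (by
      intro a ha
      obtain ⟨j, _, hj⟩ := Finset.mem_biUnion.1 ha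
      exact hcop j a hj)
  obtain ⟨T, μ, hT, hμ0, hμ1, hlow, hup⟩ := sieveR (I := I) hh hinj (by
    intro p hp
    obtain ⟨a, ha⟩ := hadm p hp
    exact ⟨a, fun i => ha i.1 i.2.val i.2.2⟩) (fun _ => bta m l) (fun _ => l)
    (fun _ => bta_pos hm) (fun _ => by
      have h1 := bta_mul (l := l) hm
      have h2 : 1 / (10 * (m : ℝ)) ≤ 1 / 10 := by
        rw [div_le_div_iff₀ (by positivity) (by norm_num)]
        linarith
      have h3 : (0 : ℝ) ≤ (2 : ℝ) ^ l * bta m l := by
        have := bta_pos (l := l) hm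
        positivity
      have h4 : (0 : ℝ) ≤ (l : ℝ) := Nat.cast_nonneg _
      have h5 : (0 : ℝ) ≤ (2 : ℝ) ^ l * bta m l * (l : ℝ) := mul_nonneg h3 h4
      nlinarith) (by
      rw [Fintype.sum_sigma]
      have h1 : ∀ j : ι, ∑ _a : {h // h ∈ B j}, ((l : ℝ) + 1) * bta m l = 1 / (10 * m) := by
        intro j
        rw [sum_const, card_univ, Fintype.card_coe, hcard, nsmul_eq_mul]
        push_cast
        rw [← bta_mul (l := l) hm]
        ring
      rw [Finset.sum_congr rfl (fun j _ => h1 j), sum_const, card_univ, nsmul_eq_mul, ← hmdef]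
      have : (m : ℝ) ≠ 0 := by positivity
      apply le_of_eq
      field_simp) Q b₀ hQ (fun i => hcopQ _ (Finset.mem_biUnion.2
        ⟨i.1, Finset.mem_univ _, i.2.2⟩)) (N0 + Q)
  -- each block contains a prime with probability at least `10^(-23)`
  have hblock : ∀ j : ι, (1 / 10 ^ 23 : ℝ) ≤
      ∑ N ∈ T.filter (fun N => ∃ a ∈ B j, (N + a).Prime), μ N := by
    intro j
    let e : {h // h ∈ B j} ↪ I := ⟨fun a => ⟨j, a⟩, by
      intro a b hab
      have h1 : (⟨j, a⟩ : I) = ⟨j, b⟩ := hab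
      exact eq_of_heq (Sigma.mk.inj_iff.1 h1).2⟩
    set S : Finset I := (univ : Finset {h // h ∈ B j}).map e with hS
    have hSc : S.card = 2 ^ l := by
      rw [hS, card_map, card_univ, Fintype.card_coe, hcard]
    have hY1 : 1 ≤ (S.card : ℝ) * (bta m l * ((l : ℝ) + 2) ^ 2) := by
      rw [hSc]
      push_cast
      have h1 := bta_mul (l := l) hm
      have h2 := bta_pos (l := l) hm
      have h3 : (0 : ℝ) ≤ (2 : ℝ) ^ l * bta m l := by positivity
      have h4 : ((l : ℝ) + 1) * ((l : ℝ) + 1) ≤ ((l : ℝ) + 2) ^ 2 := by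
        have : (0 : ℝ) ≤ l := Nat.cast_nonneg _
        nlinarith
      have h5 : (1 : ℝ) ≤ (1 / (10 * (m : ℝ))) * ((l : ℝ) + 1) := by
        rw [hl]
        push_cast
        rw [one_div, inv_mul_eq_div, le_div_iff₀ (by positivity)]
        linarith
      calc (1 : ℝ) ≤ (1 / (10 * (m : ℝ))) * ((l : ℝ) + 1) := h5
        _ = ((2 : ℝ) ^ l * bta m l) * (((l : ℝ) + 1) * ((l : ℝ) + 1)) := by rw [← h1]; ring
        _ ≤ ((2 : ℝ) ^ l * bta m l) * ((l : ℝ) + 2) ^ 2 := mul_le_mul_of_nonneg_left h4 h3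
        _ = _ := by ring
    have hpz := pz T μ hμ0 hμ1 S (fun i N => (N + hh i).Prime)
      (bta m l * ((l : ℝ) + 2) ^ 2) (by
        have := bta_pos (l := l) hm
        positivity) hY1 (fun i _ => hlow i) (by
        intro i hi i' hi' hii
        have h1 := hup {i, i'} (by simp)
        have h2 : ∏ k ∈ ({i, i'} : Finset I), ((({i, i'} : Finset I).card : ℝ) *
            (bta m l * ((l : ℝ) + 2) ^ 2)) =
            4 * (bta m l * ((l : ℝ) + 2) ^ 2) ^ 2 := by
          rw [prod_pair hii, card_pair hii]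
          push_cast
          ring
        rw [h2] at h1
        have h3 : T.filter (fun N => ∀ k ∈ ({i, i'} : Finset I), (N + hh k).Prime) =
            T.filter (fun N => (N + hh i).Prime ∧ (N + hh i').Prime) := by
          apply filter_congr
          intro N _
          simp
        rw [h3] at h1
        linarith)
    refine hpz.trans (Finset.sum_le_sum_of_subset_of_nonneg ?_ (fun _ _ _ => hμ0 _))
    intro N hN
    rw [mem_filter] at hN ⊢
    refine ⟨hN.1, ?_⟩
    have h6 : (0 : ℝ) < ((S.filter (fun i => (N + hh i).Prime)).card : ℝ) := by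
      refine lt_of_lt_of_le ?_ hN.2
      have : (0 : ℝ) < (S.card : ℝ) * (bta m l * ((l : ℝ) + 2) ^ 2) := lt_of_lt_of_le one_pos hY1
      positivity
    have h7 : 0 < (S.filter (fun i => (N + hh i).Prime)).card := by exact_mod_cast h6
    obtain ⟨i, hi⟩ := card_pos.1 h7
    rw [mem_filter, hS, Finset.mem_map] at hi
    obtain ⟨⟨a, _, rfl⟩, hp⟩ := hi
    exact ⟨a.val, a.2, hp⟩
  -- expectation
  have hsum : (1 / 10 ^ 23 : ℝ) * m ≤ ∑ N ∈ T, μ N *
      ((univ.filter (fun j : ι => ∃ a ∈ B j, (N + a).Prime)).card : ℝ) := by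
    calc (1 / 10 ^ 23 : ℝ) * m = ∑ _j : ι, (1 / 10 ^ 23 : ℝ) := by
          rw [sum_const, card_univ, nsmul_eq_mul, ← hmdef]
          ring
      _ ≤ ∑ j : ι, ∑ N ∈ T.filter (fun N => ∃ a ∈ B j, (N + a).Prime), μ N :=
          Finset.sum_le_sum fun j _ => hblock j
      _ = ∑ j : ι, ∑ N ∈ T, (if ∃ a ∈ B j, (N + a).Prime then μ N else 0) := by
          refine Finset.sum_congr rfl fun j _ => ?_
          rw [Finset.sum_filter]
      _ = ∑ N ∈ T, ∑ j : ι, (if ∃ a ∈ B j, (N + a).Prime then μ N else 0) := Finset.sum_comm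
      _ = _ := by
          refine Finset.sum_congr rfl fun N _ => ?_
          rw [Finset.card_filter]
          push_cast
          rw [Finset.mul_sum]
          refine Finset.sum_congr rfl fun j _ => ?_
          split_ifs <;> simp
  obtain ⟨N, hN, hNm⟩ : ∃ N ∈ T, (1 / 10 ^ 23 : ℝ) * m ≤
      ((univ.filter (fun j : ι => ∃ a ∈ B j, (N + a).Prime)).card : ℝ) := by
    by_contra hcon
    push Not at hcon
    have hTne : ∃ N ∈ T, 0 < μ N := by
      by_contra h1
      push Not at h1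
      have h2 : ∑ N ∈ T, μ N ≤ 0 := Finset.sum_nonpos h1
      linarith
    obtain ⟨N1, hN1, hN1p⟩ := hTne
    have h3 : ∑ N ∈ T, μ N *
        ((univ.filter (fun j : ι => ∃ a ∈ B j, (N + a).Prime)).card : ℝ) <
        ∑ N ∈ T, μ N * ((1 / 10 ^ 23 : ℝ) * m) := by
      refine Finset.sum_lt_sum (fun N hN => mul_le_mul_of_nonneg_left (hcon N hN).le (hμ0 N))
        ⟨N1, hN1, mul_lt_mul_of_pos_left (hcon N1 hN1) hN1p⟩
    rw [← Finset.sum_mul, hμ1, one_mul] at h3
    linarith
  have hTN := hT N hN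
  refine ⟨N, by omega, (hTN.2.of_dvd hLQ).trans hbL, ?_, hNm⟩
  intro g hg hgB
  exact hkill N (by omega) hTN.2 g (Finset.mem_filter.2 ⟨Finset.mem_range.2 (by omega), hgB⟩)

end Pool.Agent.H30.CP
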