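import Pool.Agent.H30.CP.Bins

/-!
# BINSZ: blocks of integer shifts
-/

namespace Pool.Agent.H30.CP

open Finset

/-- `N + b` is a prime number -/
def PP (N : ℕ) (b : ℤ) : Prop := (((N : ℤ) + b).toNat).Prime

theorem PP_shift {N S : ℕ} {b : ℤ} (hb : 0 ≤ b + S) :
    PP (N + S) b ↔ (N + (b + S).toNat).Prime := by
  unfold PP
  have e : (((N + S : ℕ) : ℤ) + b).toNat = N + (b + S).toNat := by
    push_cast
    omega
  rw [e]

open Classical in
theorem bins {ι : Type} [Fintype ι] [DecidableEq ι] [Nonempty ι] (B : ι → Finset ℤ)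
    (hcard : ∀ j, (B j).card = 2 ^ (10 * Fintype.card ι))
    (hdisj : ∀ i j, i ≠ j → Disjoint (B i) (B j))
    (hadm : ∀ p : ℕ, p.Prime → ∃ a : ℤ, ∀ j, ∀ h ∈ B j, ¬ (p : ℤ) ∣ a + h)
    (L c₀ : ℕ) (hL : 0 < L) (hdvd : ∀ j, ∀ h ∈ B j, (L : ℤ) ∣ h) (hc₀ : Nat.Coprime c₀ L)
    (D N0 : ℕ) :
    ∃ N : ℕ, N0 < N ∧ N ≡ c₀ [MOD L] ∧ (∀ b : ℤ, |b| ≤ D → PP N b → ∃ j, b ∈ B j) ∧
      (1 / 10 ^ 23 : ℝ) * Fintype.card ι ≤
        ((univ.filter (fun j : ι => ∃ b ∈ B j, PP N b)).card : ℝ) := by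
  set S : ℕ := L * (D + ∑ j, ∑ b ∈ B j, b.natAbs) with hS
  have hSD : D ≤ S := by
    rw [hS]
    exact le_trans (Nat.le_add_right _ _) (Nat.le_mul_of_pos_left _ hL)
  have hSb : ∀ j, ∀ b ∈ B j, b.natAbs ≤ S := by
    intro j b hb
    have h1 : b.natAbs ≤ ∑ b ∈ B j, b.natAbs :=
      Finset.single_le_sum (f := fun b : ℤ => b.natAbs) (fun _ _ => Nat.zero_le _) hb
    have h2 : ∑ b ∈ B j, b.natAbs ≤ ∑ j, ∑ b ∈ B j, b.natAbs :=
      Finset.single_le_sum (f := fun j => ∑ b ∈ B j, b.natAbs) (fun _ _ => Nat.zero_le _)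
        (Finset.mem_univ j)
    have h3 : D + ∑ j, ∑ b ∈ B j, b.natAbs ≤ S := by
      rw [hS]
      exact Nat.le_mul_of_pos_left _ hL
    omega
  have hLS : L ∣ S := ⟨_, rfl⟩
  have hnn : ∀ j, ∀ b ∈ B j, 0 ≤ b + S := by
    intro j b hb
    have := hSb j b hb
    omega
  obtain ⟨N, hN0, hNc, hNk, hNm⟩ := bins_nat (fun j => (B j).image (fun b => (b + (S : ℤ)).toNat))
    (by
      intro j
      rw [card_image_of_injOn, hcard]
      intro a ha b hb hab
      have h1 := hnn j a ha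
      have h2 := hnn j b hb
      have h3 : (a + (S : ℤ)).toNat = (b + (S : ℤ)).toNat := hab
      omega) (by
      intro i j hij
      rw [disjoint_left]
      intro x hx hx'
      rw [mem_image] at hx hx'
      obtain ⟨a, ha, rfl⟩ := hx
      obtain ⟨b, hb, hab⟩ := hx'
      have h1 := hnn i a ha
      have h2 := hnn j b hb
      have h3 : a = b := by omega
      subst h3
      exact (disjoint_left.1 (hdisj i j hij) ha) hb) (by
      intro p hp
      obtain ⟨a, ha⟩ := hadm p hp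
      have hp0 : (0 : ℤ) < p := by exact_mod_cast hp.pos
      refine ⟨((a - S) % p).toNat, ?_⟩
      intro j x hx hdv
      rw [mem_image] at hx
      obtain ⟨b, hb, rfl⟩ := hx
      apply ha j b hb
      have h1 := hnn j b hb
      have h2 : 0 ≤ (a - S) % p := Int.emod_nonneg _ hp0.ne'
      have h3 : (p : ℤ) ∣ ((((a - S) % p).toNat + (b + (S : ℤ)).toNat : ℕ) : ℤ) := by
        exact_mod_cast hdv
      push_cast at h3
      rw [Int.toNat_of_nonneg h2, Int.toNat_of_nonneg h1] at h3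
      have h4 : (p : ℤ) ∣ (a - S) - (a - S) % p := Int.dvd_self_sub_emod
      have h5 := dvd_add h3 h4
      have e : (a - S) % p + (b + S) + ((a - S) - (a - S) % p) = a + b := by ring
      rwa [e] at h5) L c₀ hL (by
      intro j x hx
      rw [mem_image] at hx
      obtain ⟨b, hb, rfl⟩ := hx
      have h1 := hnn j b hb
      have h2 : (L : ℤ) ∣ (((b + (S : ℤ)).toNat : ℕ) : ℤ) := by
        rw [Int.toNat_of_nonneg h1]
        exact dvd_add (hdvd j b hb) (by exact_mod_cast hLS)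
      have h3 : L ∣ (b + (S : ℤ)).toNat := by exact_mod_cast h2
      obtain ⟨t, ht⟩ := h3
      rw [ht]
      exact (Nat.coprime_add_mul_left_left c₀ L t).2 hc₀) (S + D) N0
  refine ⟨N + S, by omega, ?_, ?_, ?_⟩
  · have h1 : N + S ≡ c₀ + 0 [MOD L] := hNc.add ((Nat.modEq_zero_iff_dvd).2 hLS)
    simpa using h1
  · intro b hb hp
    have hb0 : 0 ≤ b + S := by
      have := abs_le.1 hb
      omega
    rw [PP_shift hb0] at hp
    by_contra hcon
    push Not at hcon
    refine hNk (b + S).toNat ?_ ?_ hp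
    · have := abs_le.1 hb
      omega
    · intro j hj
      rw [mem_image] at hj
      obtain ⟨b', hb', he⟩ := hj
      have h1 := hnn j b' hb'
      have h2 : b' = b := by omega
      subst h2
      exact hcon j hb'
  · refine hNm.trans (le_of_eq ?_)
    congr 2
    apply filter_congr
    intro j _
    constructor
    · rintro ⟨x, hx, hp⟩
      rw [mem_image] at hx
      obtain ⟨b, hb, rfl⟩ := hx
      exact ⟨b, hb, (PP_shift (hnn j b hb)).2 hp⟩
    · rintro ⟨b, hb, hp⟩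
      exact ⟨_, mem_image_of_mem _ hb, (PP_shift (hnn j b hb)).1 hp⟩

end Pool.Agent.H30.CP
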