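import Pool.Agent.H30.CP.Main

/-!
# FINAL: the coarse prime tuples theorem with a fixed pattern
-/

namespace Pool.Agent.H30.CP

open Finset

variable {r k : ℕ}

/-- Coarse prime tuples theorem. -/
theorem coarse_tuples (hk : 0 < k) (c : ℕ → Fin r) (L c₀ : ℕ) (hL : 0 < L)
    (hc₀ : Nat.Coprime c₀ L) :
    ∃ T : ℕ, ∀ x : Fin k → ℤ, ∃ (i : Fin r) (a : Fin k → ℤ) (Ω : Finset ℤ),
      Function.Injective a ∧ (∀ j, |a j - x j| ≤ T ∧ a j ∈ Ω) ∧
      (∀ w ∈ Ω, (L : ℤ) ∣ w ∧ ∃ j, |w - x j| ≤ T) ∧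
      ∀ D : ℕ, {N : ℕ | N ≡ c₀ [MOD L] ∧ (∀ j, c ((N : ℤ) + a j).toNat = i) ∧
        ∀ b : ℤ, |b| ≤ D → (((N : ℤ) + b).toNat.Prime ↔ b ∈ Ω)}.Infinite := by
  classical
  obtain ⟨T, hT⟩ := coarse hk c L c₀ hL hc₀
  refine ⟨T + (2 * T + 1) * k, fun x₀ => ?_⟩
  obtain ⟨x, hx1, _, hx3⟩ := sep_exists k (2 * T + 1) hk (Nat.succ_pos _) x₀
  have hnear : ∀ (b : ℤ) (j : Fin k), |b - x j| ≤ T →
      |b - x₀ j| ≤ ((T + (2 * T + 1) * k : ℕ) : ℤ) := by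
    intro b j h1
    have h2 := hx1 j
    push_cast at h2 ⊢
    calc |b - x₀ j| = |(b - x j) + (x j - x₀ j)| := by congr 1; ring
      _ ≤ |b - x j| + |x j - x₀ j| := abs_add_le _ _
      _ ≤ T + (2 * T + 1) * k := add_le_add h1 h2
  -- the window
  set U : Finset ℤ := univ.biUnion (fun j : Fin k => Icc (x j - T) (x j + T)) with hU
  have hmemU : ∀ b : ℤ, b ∈ U ↔ ∃ j, |b - x j| ≤ T := by
    intro b
    rw [hU, mem_biUnion]
    constructor
    · rintro ⟨j, _, hj⟩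
      rw [mem_Icc] at hj
      exact ⟨j, abs_le.2 ⟨by linarith [hj.1], by linarith [hj.2]⟩⟩
    · rintro ⟨j, hj⟩
      have := abs_le.1 hj
      exact ⟨j, mem_univ _, mem_Icc.2 ⟨by linarith [this.1], by linarith [this.2]⟩⟩
  -- the possible patterns
  let Q : ℕ → (Fin r × (Fin k → {b // b ∈ U}) × {s // s ∈ U.powerset}) → ℕ → Prop :=
    fun D t N => N ≡ c₀ [MOD L] ∧ (∀ j, |(t.2.1 j : ℤ) - x j| ≤ T ∧ (t.2.1 j : ℤ) ∈ t.2.2.1 ∧
      c ((N : ℤ) + (t.2.1 j : ℤ)).toNat = t.1) ∧ (∀ w ∈ t.2.2.1, (L : ℤ) ∣ w) ∧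
      ∀ b : ℤ, |b| ≤ D → (PP N b ↔ b ∈ t.2.2.1)
  have hQ : ∀ D : ℕ, ∃ t, {N : ℕ | Q D t N}.Infinite := by
    intro D
    set D' : ℕ := D + ∑ b ∈ U, b.natAbs with hD'
    have hUD : ∀ b ∈ U, |b| ≤ D' := by
      intro b hb
      have h1 : b.natAbs ≤ ∑ b ∈ U, b.natAbs :=
        Finset.single_le_sum (f := fun b : ℤ => b.natAbs) (fun _ _ => Nat.zero_le _) hb
      rw [Int.abs_eq_natAbs]
      have : b.natAbs ≤ D' := by omega
      exact_mod_cast this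
    have hex : ∀ N0 : ℕ, ∃ N ≥ N0, ∃ t, Q D t N := by
      intro N0
      obtain ⟨N, hN, hNc, h1, i, h2⟩ := hT x D' N0
      choose a ha1 ha2 ha3 using h2
      have haU : ∀ j, a j ∈ U := fun j => (hmemU _).2 ⟨j, ha1 j⟩
      refine ⟨N, hN, ⟨i, fun j => ⟨a j, haU j⟩,
        ⟨U.filter (fun b => PP N b), mem_powerset.2 (filter_subset _ _)⟩⟩, hNc, ?_, ?_, ?_⟩
      · intro j
        exact ⟨ha1 j, mem_filter.2 ⟨haU j, ha2 j⟩, ha3 j⟩
      · intro w hw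
        have hw' := mem_filter.1 hw
        exact (h1 w (hUD w hw'.1) hw'.2).1
      · intro b hb
        constructor
        · intro hp
          have hb' : |b| ≤ D' := hb.trans (by
            have : D ≤ D' := Nat.le_add_right _ _
            exact_mod_cast this)
          exact mem_filter.2 ⟨(hmemU b).2 (h1 b hb' hp).2, hp⟩
        · intro hm
          exact (mem_filter.1 hm).2
    by_contra hcon
    push Not at hcon
    have hfin : (⋃ t, {N : ℕ | Q D t N}).Finite := Set.finite_iUnion fun t => hcon t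
    obtain ⟨m, hm⟩ := hfin.bddAbove
    obtain ⟨N, hN, t, ht⟩ := hex (m + 1)
    have h3 := hm (Set.mem_iUnion.2 ⟨t, ht⟩)
    omega
  -- one pattern for all `D`
  obtain ⟨t, ht⟩ : ∃ t, ∀ D : ℕ, {N : ℕ | Q D t N}.Infinite := by
    by_contra hcon
    push Not at hcon
    choose D hD using hcon
    obtain ⟨t, ht⟩ := hQ (∑ t, D t)
    refine ht ((hD t).subset ?_)
    intro N hN
    obtain ⟨h1, h2, h3, h4⟩ := hN
    refine ⟨h1, h2, h3, fun b hb => h4 b (hb.trans ?_)⟩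
    have h5 : D t ≤ ∑ t, D t :=
      Finset.single_le_sum (f := fun t => D t) (fun _ _ => Nat.zero_le _) (Finset.mem_univ t)
    exact_mod_cast h5
  obtain ⟨N1, hN1⟩ := (ht 0).nonempty
  refine ⟨t.1, fun j => (t.2.1 j : ℤ), t.2.2.1, ?_, ?_, ?_, ?_⟩
  · intro j j' hjj
    by_contra hne
    have h1 := (hN1.2.1 j).1
    have h2 := (hN1.2.1 j').1
    have h3 := hx3 j j' hne
    have hjj' : (t.2.1 j : ℤ) = (t.2.1 j' : ℤ) := hjj
    rw [hjj'] at h1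
    push_cast at h3
    have h4 : |x j - x j'| ≤ |(t.2.1 j' : ℤ) - x j'| + |(t.2.1 j' : ℤ) - x j| := by
      have e : x j - x j' = ((t.2.1 j' : ℤ) - x j') - ((t.2.1 j' : ℤ) - x j) := by ring
      rw [e]
      exact abs_sub _ _
    linarith
  · intro j
    exact ⟨hnear _ j (hN1.2.1 j).1, (hN1.2.1 j).2.1⟩
  · intro w hw
    refine ⟨hN1.2.2.1 w hw, ?_⟩
    obtain ⟨j, hj⟩ := (hmemU w).1 ((mem_powerset.1 t.2.2.2) hw)
    exact ⟨j, hnear w j hj⟩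
  · intro D
    refine (ht D).mono ?_
    intro N hN
    obtain ⟨h1, h2, _, h4⟩ := hN
    exact ⟨h1, fun j => (h2 j).2.2, fun b hb => h4 b hb⟩

end Pool.Agent.H30.CP
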