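import Pool.Agent.H30.CP.Null

/-!
# MAIN: the coarse prime tuples theorem
-/

namespace Pool.Agent.H30.CP

open Finset

variable {r k : ℕ}

theorem height_exists (hk : 0 < k) (r : ℕ) :
    ∃ M : ℕ, (r : ℝ) * (((k - 1) ^ M : ℕ) : ℝ) < (1 / 10 ^ 23 : ℝ) * ((k ^ M : ℕ) : ℝ) := by
  have hkR : (0 : ℝ) < k := by exact_mod_cast hk
  have h1 : ((k : ℝ) - 1) / k < 1 := by
    rw [div_lt_one hkR]
    linarith
  have h2 : (0 : ℝ) < 1 / (10 ^ 23 * ((r : ℝ) + 1)) := by positivity
  obtain ⟨M, hM⟩ := exists_pow_lt_of_lt_one h2 h1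
  refine ⟨M, ?_⟩
  have hk1 : (1 : ℝ) ≤ k := by exact_mod_cast hk
  rw [div_pow, div_lt_div_iff₀ (by positivity) (by positivity), one_mul] at hM
  have h3 : (((k - 1) ^ M : ℕ) : ℝ) = ((k : ℝ) - 1) ^ M := by
    rw [Nat.cast_pow, Nat.cast_sub hk, Nat.cast_one]
  rw [h3]
  push_cast
  have h4 : (0 : ℝ) ≤ ((k : ℝ) - 1) ^ M := pow_nonneg (by linarith) M
  have h5 : ((k : ℝ) - 1) ^ M * (10 ^ 23 * (r : ℝ)) ≤
      ((k : ℝ) - 1) ^ M * (10 ^ 23 * ((r : ℝ) + 1)) := by
    refine mul_le_mul_of_nonneg_left ?_ h4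
    have : (0 : ℝ) ≤ 10 ^ 23 := by positivity
    nlinarith
  have h6 : ((k : ℝ) - 1) ^ M * (10 ^ 23 * (r : ℝ)) < (k : ℝ) ^ M := lt_of_le_of_lt h5 hM
  have h7 : (r : ℝ) * ((k : ℝ) - 1) ^ M * 10 ^ 23 < (k : ℝ) ^ M := by linarith
  have h8 : (0 : ℝ) < 10 ^ 23 := by positivity
  rw [one_div, inv_mul_eq_div, lt_div_iff₀ h8]
  exact h7

open Classical in
theorem coarse (hk : 0 < k) (c : ℕ → Fin r) (L c₀ : ℕ) (hL : 0 < L) (hc₀ : Nat.Coprime c₀ L) :
    ∃ T : ℕ, ∀ x : Fin k → ℤ, ∀ D N0 : ℕ, ∃ N ≥ N0, GoodAt c L c₀ T x D N := by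
  by_contra hcon
  have hbad : ∀ T : ℕ, ∃ x : Fin k → ℤ, ∃ D N0 : ℕ, ∀ N ≥ N0, ¬ GoodAt c L c₀ T x D N := by
    push Not at hcon
    exact hcon
  obtain ⟨M, hM⟩ := height_exists hk r
  set K : ℕ := k ^ M * 2 ^ (10 * k ^ M) with hK
  set W : ℕ := L * K.factorial with hW
  have hW0 : 0 < W := Nat.mul_pos hL (Nat.factorial_pos K)
  have hW0Z : (0 : ℤ) < W := by exact_mod_cast hW0
  set B0 : Finset ℤ := (range (2 ^ (10 * k ^ M))).image (fun i : ℕ => (W : ℤ) * (i : ℤ)) with hB0
  have hB0W : ∀ β ∈ B0, (W : ℤ) ∣ β := by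
    intro β hβ
    rw [hB0, mem_image] at hβ
    obtain ⟨i, _, rfl⟩ := hβ
    exact dvd_mul_right _ _
  have hB0card : B0.card = 2 ^ (10 * k ^ M) := by
    rw [hB0, card_image_of_injective, card_range]
    intro i j hij
    have h1 : (W : ℤ) * (i : ℤ) = (W : ℤ) * (j : ℤ) := hij
    exact_mod_cast mul_left_cancel₀ hW0Z.ne' h1
  obtain ⟨pos, ⟨D, N0, hnull⟩, hposW, hposD⟩ :=
    tree_exists hk hbad W hW0 (dvd_mul_right _ _) B0 hB0W M
  have hcardι : Fintype.card (Fin M → Fin k) = k ^ M := by simp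
  have hne : Nonempty (Fin M → Fin k) := ⟨fun _ => ⟨0, hk⟩⟩
  have hBW : ∀ d : Fin M → Fin k, ∀ h ∈ B0.image (fun β => β + pos d), (W : ℤ) ∣ h := by
    intro d h hh
    rw [mem_image] at hh
    obtain ⟨β, hβ, rfl⟩ := hh
    exact dvd_add (hB0W β hβ) (hposW d)
  have hBcard : ∀ d : Fin M → Fin k, (B0.image (fun β => β + pos d)).card =
      2 ^ (10 * Fintype.card (Fin M → Fin k)) := by
    intro d
    rw [card_image_of_injective _ (add_left_injective _), hB0card, hcardι]
  obtain ⟨N, hN0, hNc, hNex, hNm⟩ := bins (fun d : Fin M → Fin k => B0.image (fun β => β + pos d))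
    hBcard (by
      intro d d' hdd
      rw [disjoint_left]
      intro h hh hh'
      rw [mem_image] at hh hh'
      obtain ⟨β, hβ, rfl⟩ := hh
      obtain ⟨β', hβ', he⟩ := hh'
      exact hposD d d' hdd β hβ β' hβ' he.symm) (by
      intro p hp
      by_cases hpK : p ≤ K
      · refine ⟨1, fun d h hh hdv => ?_⟩
        have h1 : (p : ℤ) ∣ (W : ℤ) := by
          have h2 : p ∣ W := (Nat.dvd_factorial hp.pos hpK).trans (dvd_mul_left _ _)
          exact_mod_cast h2
        have h3 : (p : ℤ) ∣ h := h1.trans (hBW d h hh)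
        have h4 : (p : ℤ) ∣ 1 := (dvd_add_left h3).1 hdv
        have h5 : p ∣ 1 := by exact_mod_cast h4
        exact hp.one_lt.ne' (Nat.dvd_one.1 h5)
      · have hp0 : (0 : ℤ) < p := by exact_mod_cast hp.pos
        set E : Finset ℕ := (univ.biUnion (fun d : Fin M → Fin k =>
          B0.image (fun β => β + pos d))).image (fun h : ℤ => ((-h) % p).toNat) with hE
        have hEcard : E.card ≤ K := by
          refine card_image_le.trans (card_biUnion_le.trans ?_)
          rw [Finset.sum_congr rfl (fun d _ => hBcard d), sum_const, card_univ, hcardι, smul_eq_mul]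
        obtain ⟨a, ha, haE⟩ : ∃ a ∈ range p, a ∉ E := by
          by_contra hcon2
          push Not at hcon2
          have h1 : (range p).card ≤ E.card := card_le_card hcon2
          rw [card_range] at h1
          omega
        refine ⟨(a : ℤ), fun d h hh hdv => haE ?_⟩
        rw [hE, mem_image]
        refine ⟨h, mem_biUnion.2 ⟨d, mem_univ _, hh⟩, ?_⟩
        have h1 : (-h) % (p : ℤ) = (a : ℤ) % (p : ℤ) := by
          apply Int.emod_emod_of_dvd _ dvd_rfl |>.symm.trans ?_ |>.trans ?_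
          · exact (a : ℤ) % p
          · have h2 : (p : ℤ) ∣ (a : ℤ) - (-h) := by
              have e : (a : ℤ) - (-h) = a + h := by ring
              rw [e]
              exact hdv
            rw [Int.emod_emod_of_dvd _ dvd_rfl]
            exact (Int.emod_emod_of_dvd _ dvd_rfl).symm.trans
              (by rw [Int.emod_emod_of_dvd _ dvd_rfl]; exact (Int.emod_emod_of_dvd _ dvd_rfl).symm.trans (by
                rw [Int.emod_emod_of_dvd _ dvd_rfl]
                exact Int.emod_eq_emod_iff_emod_sub_eq_zero.2 (by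
                  rw [← Int.dvd_iff_emod_eq_zero]
                  exact (dvd_sub_comm).1 h2)))
          · rfl
        rw [h1, Int.emod_eq_of_lt (Int.natCast_nonneg a) (by exact_mod_cast mem_range.1 ha)]
        simp) L c₀ hL (fun d h hh => dvd_trans (by
          rw [hW]
          push_cast
          exact dvd_mul_right _ _) (hBW d h hh)) hc₀ D N0
  -- the coloured sets of leaves
  have hcol : ∀ i : Fin r, (univ.filter (fun d : Fin M → Fin k => ∃ β ∈ B0, PP N (β + pos d) ∧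
      c ((N : ℤ) + (β + pos d)).toNat = i)).card ≤ (k - 1) ^ M := by
    intro i
    apply fn_card hk
    intro h
    refine hnull N hN0.le hNc ?_ i (FN.mono M ?_ h)
    · intro b hb hp
      obtain ⟨d, hd⟩ := hNex b hb hp
      rw [mem_image] at hd
      obtain ⟨β, hβ, he⟩ := hd
      exact ⟨d, β, hβ, he.symm⟩
    · intro d hd
      have hd' : d ∈ univ.filter (fun d : Fin M → Fin k => ∃ β ∈ B0, PP N (β + pos d) ∧
        c ((N : ℤ) + (β + pos d)).toNat = i) := hd
      exact (mem_filter.1 hd').2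
  have hsub : univ.filter (fun d : Fin M → Fin k => ∃ b ∈ B0.image (fun β => β + pos d), PP N b) ⊆
      (univ : Finset (Fin r)).biUnion (fun i => univ.filter (fun d : Fin M → Fin k =>
        ∃ β ∈ B0, PP N (β + pos d) ∧ c ((N : ℤ) + (β + pos d)).toNat = i)) := by
    intro d hd
    rw [mem_filter] at hd
    obtain ⟨_, b, hb, hp⟩ := hd
    rw [mem_image] at hb
    obtain ⟨β, hβ, rfl⟩ := hb
    rw [mem_biUnion]
    exact ⟨_, mem_univ _, mem_filter.2 ⟨mem_univ _, β, hβ, hp, rfl⟩⟩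
  have h1 : (univ.filter (fun d : Fin M → Fin k =>
      ∃ b ∈ B0.image (fun β => β + pos d), PP N b)).card ≤ r * (k - 1) ^ M := by
    refine (card_le_card hsub).trans (card_biUnion_le.trans ?_)
    refine (Finset.sum_le_sum fun i _ => hcol i).trans (le_of_eq ?_)
    rw [sum_const, card_univ, Fintype.card_fin, smul_eq_mul]
  have h2 : ((univ.filter (fun d : Fin M → Fin k =>
      ∃ b ∈ B0.image (fun β => β + pos d), PP N b)).card : ℝ) ≤
      (r : ℝ) * (((k - 1) ^ M : ℕ) : ℝ) := by exact_mod_cast h1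
  rw [hcardι] at hNm
  linarith

end Pool.Agent.H30.CP
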