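import Mathlib

/-!
# TREE: sets of leaves without a full node

The leaves of the `k`-ary tree of height `n` are the maps `Fin n → Fin k` (coordinate `0` is the top
level).  A set of leaves has a full node if some node has an element of the set below each of its `k`
children.  A set without full node has at most `(k - 1) ^ n` elements.
-/

namespace Pool.Agent.H30.CP

open Finset

/-- the set of leaves `S` has a full node -/
def FN {k : ℕ} : (n : ℕ) → Set (Fin n → Fin k) → Prop
  | 0, _ => False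
  | n + 1, S => (∀ j : Fin k, ∃ d ∈ S, d 0 = j) ∨
      ∃ j : Fin k, FN n {d | (Fin.cons j d : Fin (n + 1) → Fin k) ∈ S}

theorem FN.mono {k : ℕ} : ∀ (n : ℕ) {S S' : Set (Fin n → Fin k)}, S ⊆ S' → FN n S → FN n S'
  | 0, _, _, _, h => h
  | n + 1, S, S', hS, h => by
    rcases h with h | ⟨j, h⟩
    · exact Or.inl fun j => by
        obtain ⟨d, hd, hj⟩ := h j
        exact ⟨d, hS hd, hj⟩
    · exact Or.inr ⟨j, FN.mono n (fun d hd => hS hd) h⟩

open Classical in
theorem fn_card {k : ℕ} (hk : 0 < k) : ∀ (n : ℕ) (S : Finset (Fin n → Fin k)),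
    ¬ FN n (S : Set (Fin n → Fin k)) → S.card ≤ (k - 1) ^ n := by
  intro n
  induction n with
  | zero =>
    intro S _
    rw [pow_zero]
    exact card_le_one.2 fun a _ b _ => Subsingleton.elim a b
  | succ n ih =>
    intro S hS
    have h1 : ¬ (∀ j : Fin k, ∃ d ∈ (S : Set (Fin (n + 1) → Fin k)), d 0 = j) := fun h => hS (Or.inl h)
    have h2 : ∀ j : Fin k, ¬ FN n {d | (Fin.cons j d : Fin (n + 1) → Fin k) ∈
        (S : Set (Fin (n + 1) → Fin k))} := fun j h => hS (Or.inr ⟨j, h⟩)
    push Not at h1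
    obtain ⟨j₀, hj₀⟩ := h1
    have hfib : ∀ j : Fin k, (S.filter (fun d => d 0 = j)).card ≤ (k - 1) ^ n := by
      intro j
      set S' : Finset (Fin n → Fin k) := univ.filter
        (fun d => (Fin.cons j d : Fin (n + 1) → Fin k) ∈ S) with hS'
      have h3 : S'.card ≤ (k - 1) ^ n := by
        apply ih
        intro h4
        apply h2 j
        refine FN.mono n ?_ h4
        intro d hd
        have : d ∈ S' := hd
        rw [hS', mem_filter] at this
        exact this.2
      refine le_trans ?_ h3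
      apply card_le_card_of_injOn (fun d => Fin.tail d)
      · intro d hd
        have hd' : d ∈ S.filter (fun d => d 0 = j) := hd
        rw [mem_filter] at hd'
        show Fin.tail d ∈ S'
        rw [hS', mem_filter]
        refine ⟨mem_univ _, ?_⟩
        rw [← hd'.2, Fin.cons_self_tail]
        exact hd'.1
      · intro d hd d' hd' h
        have h5 : d ∈ S.filter (fun d => d 0 = j) := hd
        have h6 : d' ∈ S.filter (fun d => d 0 = j) := hd'
        rw [mem_filter] at h5 h6
        have h7 : Fin.tail d = Fin.tail d' := h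
        rw [← Fin.cons_self_tail d, ← Fin.cons_self_tail d', h7, h5.2, h6.2]
    have h0 : (S.filter (fun d => d 0 = j₀)).card = 0 := by
      rw [card_eq_zero, filter_eq_empty_iff]
      intro d hd
      exact hj₀ d hd
    have h4 : S.card = ∑ j : Fin k, (S.filter (fun d => d 0 = j)).card :=
      card_eq_sum_card_fiberwise (fun d _ => mem_univ _)
    rw [h4, ← Finset.add_sum_erase _ _ (mem_univ j₀), h0, zero_add]
    calc ∑ j ∈ univ.erase j₀, (S.filter (fun d => d 0 = j)).card ≤
          ∑ _j ∈ univ.erase j₀, (k - 1) ^ n := Finset.sum_le_sum fun j _ => hfib j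
      _ = (k - 1) * (k - 1) ^ n := by
          rw [sum_const, card_erase_of_mem (mem_univ _), card_univ, Fintype.card_fin, smul_eq_mul]
      _ = (k - 1) ^ (n + 1) := by rw [pow_succ]; ring

/-- separated multiples of `V` near given integers -/
theorem sep_exists (k V : ℕ) (hk : 0 < k) (hV : 0 < V) (x₀ : Fin k → ℤ) :
    ∃ x : Fin k → ℤ, (∀ j, |x j - x₀ j| ≤ V * k) ∧ (∀ j, (V : ℤ) ∣ x j) ∧
      ∀ i j, i ≠ j → (V : ℤ) ≤ |x i - x j| := by
  have hV0 : (0 : ℤ) < V := by exact_mod_cast hV
  have hk0 : (0 : ℤ) < k := by exact_mod_cast hk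
  have hVk : (0 : ℤ) < V * k := mul_pos hV0 hk0
  refine ⟨fun j => V * (k * (x₀ j / (V * k)) + (j : ℕ)), ?_, ?_, ?_⟩
  · intro j
    have h1 := Int.emod_add_mul_ediv (x₀ j) (V * k)
    have h2 := Int.emod_nonneg (x₀ j) hVk.ne'
    have h3 := Int.emod_lt_of_pos (x₀ j) hVk
    have h4 : (((j : ℕ) : ℤ)) < k := by exact_mod_cast j.2
    have h5 : (0 : ℤ) ≤ ((j : ℕ) : ℤ) := Int.natCast_nonneg _
    have h6 : (V : ℤ) * ((j : ℕ) : ℤ) ≤ V * k := mul_le_mul_of_nonneg_left h4.le hV0.le
    have h7 : (0 : ℤ) ≤ (V : ℤ) * ((j : ℕ) : ℤ) := mul_nonneg hV0.le h5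
    have e : (V : ℤ) * (k * (x₀ j / (V * k)) + (j : ℕ)) - x₀ j =
        V * (j : ℕ) - x₀ j % (V * k) := by
      linear_combination h1
    show |(V : ℤ) * (k * (x₀ j / (V * k)) + (j : ℕ)) - x₀ j| ≤ V * k
    rw [e, abs_le]
    constructor <;> linarith
  · intro j
    exact dvd_mul_right _ _
  · intro i j hij
    show (V : ℤ) ≤ |(V : ℤ) * (k * (x₀ i / (V * k)) + (i : ℕ)) -
      V * (k * (x₀ j / (V * k)) + (j : ℕ))|
    rw [← mul_sub, abs_mul, abs_of_pos hV0]
    refine le_mul_of_one_le_right hV0.le ?_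
    apply Int.one_le_abs
    intro h
    apply hij
    have h1 : (((i : ℕ) : ℤ)) < k := by exact_mod_cast i.2
    have h2 : (((j : ℕ) : ℤ)) < k := by exact_mod_cast j.2
    have h3 : (k : ℤ) ∣ ((i : ℕ) : ℤ) - ((j : ℕ) : ℤ) := by
      refine ⟨(x₀ j / (V * k)) - (x₀ i / (V * k)), ?_⟩
      linear_combination h
    have h4 : ((i : ℕ) : ℤ) - ((j : ℕ) : ℤ) = 0 := by
      apply Int.eq_zero_of_abs_lt_dvd h3
      rw [abs_lt]
      constructor
      · have : (0 : ℤ) ≤ ((i : ℕ) : ℤ) := Int.natCast_nonneg _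
        linarith
      · have : (0 : ℤ) ≤ ((j : ℕ) : ℤ) := Int.natCast_nonneg _
        linarith
    apply Fin.ext
    omega

end Pool.Agent.H30.CP
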