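import Pool.Agent.H30.CP.BinsZ
import Pool.Agent.H30.CP.Tree

/-!
# NULL: trees without full nodes

`GoodAt c L c₀ T x D N`: `N ≡ c₀ (mod L)`, all primes `N + b` with `|b| ≤ D` have `L ∣ b` and `b` within `T`
of some `x j`, and there is a colour `i` such that for each `j` some `N + b`, `|b - x j| ≤ T`, is a prime of
colour `i`.  If for each `T` there is `x` with only finitely many such `N` (for some `D`), then for every `n` there
is a tree of height `n` which has no full node for large `N` (`tree_exists`).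
-/

namespace Pool.Agent.H30.CP

open Finset

variable {r k : ℕ}

def GoodAt (c : ℕ → Fin r) (L c₀ T : ℕ) (x : Fin k → ℤ) (D N : ℕ) : Prop :=
  N ≡ c₀ [MOD L] ∧ (∀ b : ℤ, |b| ≤ D → PP N b → (L : ℤ) ∣ b ∧ ∃ j, |b - x j| ≤ T) ∧
    ∃ i : Fin r, ∀ j, ∃ b : ℤ, |b - x j| ≤ T ∧ PP N b ∧ c ((N : ℤ) + b).toNat = i

theorem GoodAt.mono {c : ℕ → Fin r} {L c₀ T : ℕ} {x x₀ : Fin k → ℤ} {D N : ℕ} (s : ℕ)
    (h : GoodAt c L c₀ T x D N) (hx : ∀ j, |x j - x₀ j| ≤ s) :
    GoodAt c L c₀ (T + s) x₀ D N := by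
  have key : ∀ (b : ℤ) (j : Fin k), |b - x j| ≤ T → |b - x₀ j| ≤ ((T + s : ℕ) : ℤ) := by
    intro b j h1
    have h2 := hx j
    push_cast
    calc |b - x₀ j| = |(b - x j) + (x j - x₀ j)| := by congr 1; ring
      _ ≤ |b - x j| + |x j - x₀ j| := abs_add_le _ _
      _ ≤ T + s := add_le_add h1 h2
  obtain ⟨h1, h2, i, h3⟩ := h
  refine ⟨h1, fun b hb hp => ?_, i, fun j => ?_⟩
  · obtain ⟨h4, j, h5⟩ := h2 b hb hp
    exact ⟨h4, j, key b j h5⟩
  · obtain ⟨b, h4, h5⟩ := h3 j
    exact ⟨b, key b j h4, h5⟩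

/-- separated bad vectors -/
theorem bad_sep {c : ℕ → Fin r} {L c₀ : ℕ} (hk : 0 < k)
    (hbad : ∀ T : ℕ, ∃ x : Fin k → ℤ, ∃ D N0 : ℕ, ∀ N ≥ N0, ¬ GoodAt c L c₀ T x D N)
    (W : ℕ) (hW : 0 < W) (T G : ℕ) :
    ∃ x : Fin k → ℤ, (∀ j, (W : ℤ) ∣ x j) ∧ (∀ i j, i ≠ j → (G : ℤ) < |x i - x j|) ∧
      ∃ D N0 : ℕ, ∀ N ≥ N0, ¬ GoodAt c L c₀ T x D N := by
  set V : ℕ := W * (G + 1) with hV
  have hV0 : 0 < V := Nat.mul_pos hW (Nat.succ_pos _)
  obtain ⟨x₀, D, N0, hx₀⟩ := hbad (T + V * k)
  obtain ⟨x, h1, h2, h3⟩ := sep_exists k V hk hV0 x₀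
  refine ⟨x, fun j => ?_, fun i j hij => ?_, D, N0, fun N hN hg => hx₀ N hN ?_⟩
  · have : (W : ℤ) ∣ (V : ℤ) := by
      rw [hV]
      push_cast
      exact dvd_mul_right _ _
    exact this.trans (h2 j)
  · have h4 := h3 i j hij
    have h5 : G + 1 ≤ V := Nat.le_mul_of_pos_left _ hW
    have h6 : ((G + 1 : ℕ) : ℤ) ≤ (V : ℤ) := by exact_mod_cast h5
    push_cast at h6
    linarith
  · refine hg.mono (V * k) (fun j => ?_)
    have := h1 j
    push_cast
    exact this

/-- no full node for large `N` -/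
def Null (c : ℕ → Fin r) (L c₀ : ℕ) (B0 : Finset ℤ) (n : ℕ) (pos : (Fin n → Fin k) → ℤ) : Prop :=
  ∃ D N0 : ℕ, ∀ N ≥ N0, N ≡ c₀ [MOD L] →
    (∀ b : ℤ, |b| ≤ D → PP N b → ∃ d, ∃ β ∈ B0, b = β + pos d) →
    ∀ i : Fin r, ¬ FN n {d | ∃ β ∈ B0, PP N (β + pos d) ∧ c ((N : ℤ) + (β + pos d)).toNat = i}

theorem tree_exists {c : ℕ → Fin r} {L c₀ : ℕ} (hk : 0 < k)
    (hbad : ∀ T : ℕ, ∃ x : Fin k → ℤ, ∃ D N0 : ℕ, ∀ N ≥ N0, ¬ GoodAt c L c₀ T x D N)
    (W : ℕ) (hW : 0 < W) (hLW : L ∣ W) (B0 : Finset ℤ) (hB0 : ∀ β ∈ B0, (W : ℤ) ∣ β) :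
    ∀ n : ℕ, ∃ pos : (Fin n → Fin k) → ℤ, Null c L c₀ B0 n pos ∧ (∀ d, (W : ℤ) ∣ pos d) ∧
      ∀ d d', d ≠ d' → ∀ β ∈ B0, ∀ β' ∈ B0, β + pos d ≠ β' + pos d' := by
  intro n
  induction n with
  | zero =>
    refine ⟨fun _ => 0, ⟨0, 0, fun N _ _ _ i h => h⟩, fun _ => dvd_zero _, ?_⟩
    intro d d' hd
    exact absurd (Subsingleton.elim d d') hd
  | succ n ih =>
    obtain ⟨pos, ⟨D, N0, hnull⟩, hposW, hposD⟩ := ih
    -- a bound for the tree
    set R : ℕ := ∑ d : Fin n → Fin k, ∑ β ∈ B0, (β + pos d).natAbs with hR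
    have hRb : ∀ d, ∀ β ∈ B0, |β + pos d| ≤ R := by
      intro d β hβ
      have h1 : (β + pos d).natAbs ≤ ∑ β ∈ B0, (β + pos d).natAbs :=
        Finset.single_le_sum (f := fun β : ℤ => (β + pos d).natAbs) (fun _ _ => Nat.zero_le _) hβ
      have h2 : ∑ β ∈ B0, (β + pos d).natAbs ≤ R :=
        Finset.single_le_sum (f := fun d => ∑ β ∈ B0, (β + pos d).natAbs)
          (fun _ _ => Nat.zero_le _) (Finset.mem_univ d)
      have h3 := h1.trans h2
      rw [Int.abs_eq_natAbs]
      exact_mod_cast h3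
    obtain ⟨x, hxW, hxG, Dx, Nx, hx⟩ := bad_sep hk hbad W hW R (2 * R + D)
    set X : ℕ := ∑ j, (x j).natAbs with hX
    have hXb : ∀ j, |x j| ≤ X := by
      intro j
      have h1 : (x j).natAbs ≤ X :=
        Finset.single_le_sum (f := fun j => (x j).natAbs) (fun _ _ => Nat.zero_le _)
          (Finset.mem_univ j)
      rw [Int.abs_eq_natAbs]
      exact_mod_cast h1
    have hLx : ∀ j, (L : ℤ) ∣ x j := fun j => dvd_trans (by exact_mod_cast hLW) (hxW j)
    refine ⟨fun d => x (d 0) + pos (Fin.tail d), ⟨max Dx (D + X), max Nx (N0 + X), ?_⟩, ?_, ?_⟩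
    · intro N hN hNc hex i hFN
      rcases hFN with hroot | ⟨j, hchild⟩
      · -- the root is full
        refine hx N (le_trans (le_max_left _ _) hN) ⟨hNc, ?_, i, ?_⟩
        · intro b hb hp
          obtain ⟨d, β, hβ, he⟩ := hex b (hb.trans (by
            have : Dx ≤ max Dx (D + X) := le_max_left _ _
            exact_mod_cast this)) hp
          refine ⟨?_, d 0, ?_⟩
          · rw [he]
            have hLWz : (L : ℤ) ∣ (W : ℤ) := by exact_mod_cast hLW
            exact dvd_add (hLWz.trans (hB0 β hβ)) (dvd_add (hLx _) (hLWz.trans (hposW _)))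
          · have e : b - x (d 0) = β + pos (Fin.tail d) := by
              rw [he]
              ring
            rw [e]
            exact hRb _ β hβ
        · intro j
          obtain ⟨d, ⟨β, hβ, hp, hc⟩, hd⟩ := hroot j
          refine ⟨β + (x (d 0) + pos (Fin.tail d)), ?_, hp, hc⟩
          rw [← hd]
          have e : β + (x (d 0) + pos (Fin.tail d)) - x (d 0) = β + pos (Fin.tail d) := by ring
          rw [e]
          exact hRb _ β hβ
      · -- a node in the child `j`
        have hNX : (X : ℤ) ≤ N := by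
          have h1 : N0 + X ≤ max Nx (N0 + X) := le_max_right _ _
          have h2 : X ≤ N := by omega
          exact_mod_cast h2
        have hxj := abs_le.1 (hXb j)
        obtain ⟨N', hN'⟩ : ∃ N' : ℕ, (N' : ℤ) = N + x j :=
          ⟨((N : ℤ) + x j).toNat, Int.toNat_of_nonneg (by linarith)⟩
        have hPP : ∀ b : ℤ, (N' : ℤ) + b = (N : ℤ) + (b + x j) := by
          intro b
          rw [hN']
          ring
        refine hnull N' ?_ ?_ ?_ i ?_
        · have h1 : N0 + X ≤ N := le_trans (le_max_right _ _) hN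
          have h2 : ((N0 + X : ℕ) : ℤ) ≤ N := by exact_mod_cast h1
          push_cast at h2
          have h3 : (N0 : ℤ) ≤ N' := by
            rw [hN']
            linarith
          exact_mod_cast h3
        · have h1 : (N' : ℤ) ≡ (N : ℤ) [ZMOD L] := by
            rw [Int.modEq_iff_dvd, hN']
            have e : (N : ℤ) - (N + x j) = -(x j) := by ring
            rw [e]
            exact (dvd_neg).2 (hLx j)
          have h2 : N' ≡ N [MOD L] := (Int.natCast_modEq_iff).1 h1
          exact h2.trans hNc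
        · intro b hb hp
          have hp' : PP N (b + x j) := by
            unfold PP at hp ⊢
            rw [← hPP]
            exact hp
          obtain ⟨d, β, hβ, he⟩ := hex (b + x j) (by
            have h1 : D + X ≤ max Dx (D + X) := le_max_right _ _
            have h2 : ((D + X : ℕ) : ℤ) ≤ ((max Dx (D + X) : ℕ) : ℤ) := by exact_mod_cast h1
            refine le_trans ?_ h2
            push_cast
            exact (abs_add_le _ _).trans (add_le_add hb (hXb j))) hp'
          by_cases hd : d 0 = j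
          · refine ⟨Fin.tail d, β, hβ, ?_⟩
            have he' : b + x j = β + (x (d 0) + pos (Fin.tail d)) := he
            rw [hd] at he'
            linarith
          · exfalso
            have h1 := hxG (d 0) j hd
            have h2 := hRb (Fin.tail d) β hβ
            have e : x (d 0) - x j = b - (β + pos (Fin.tail d)) := by linarith
            rw [e] at h1
            have h3 := abs_sub b (β + pos (Fin.tail d))
            push_cast at h1
            have h4 : (0 : ℤ) ≤ R := Int.natCast_nonneg _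
            linarith
        · refine FN.mono n ?_ hchild
          intro d hd
          obtain ⟨β, hβ, hp, hc⟩ := hd
          have ev : (N' : ℤ) + (β + pos d) = (N : ℤ) + (β + (fun d : Fin (n + 1) → Fin k =>
              x (d 0) + pos (Fin.tail d)) (Fin.cons j d)) := by
            have e1 : (fun d : Fin (n + 1) → Fin k => x (d 0) + pos (Fin.tail d)) (Fin.cons j d) =
                x j + pos d := by
              show x ((Fin.cons j d : Fin (n + 1) → Fin k) 0) +
                pos (Fin.tail (Fin.cons j d : Fin (n + 1) → Fin k)) = x j + pos d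
              rw [Fin.cons_zero, Fin.tail_cons]
            rw [e1, hN']
            ring
          refine ⟨β, hβ, ?_, ?_⟩
          · unfold PP at hp ⊢
            rw [ev]
            exact hp
          · rw [ev]
            exact hc
    · intro d
      exact dvd_add (hxW _) (hposW _)
    · intro d d' hdd β hβ β' hβ' he
      by_cases h0 : d 0 = d' 0
      · refine hposD (Fin.tail d) (Fin.tail d') ?_ β hβ β' hβ' ?_
        · intro ht
          apply hdd
          rw [← Fin.cons_self_tail d, ← Fin.cons_self_tail d', ht, h0]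
        · have he' : β + (x (d 0) + pos (Fin.tail d)) = β' + (x (d' 0) + pos (Fin.tail d')) := he
          rw [h0] at he'
          linarith
      · have h1 := hxG (d 0) (d' 0) h0
        have h2 := hRb (Fin.tail d) β hβ
        have h3 := hRb (Fin.tail d') β' hβ'
        have he' : β + (x (d 0) + pos (Fin.tail d)) = β' + (x (d' 0) + pos (Fin.tail d')) := he
        have e : x (d 0) - x (d' 0) = (β' + pos (Fin.tail d')) - (β + pos (Fin.tail d)) := by
          linarith
        rw [e] at h1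
        have h4 := abs_sub (β' + pos (Fin.tail d')) (β + pos (Fin.tail d))
        push_cast at h1
        have h5 : (0 : ℤ) ≤ D := Int.natCast_nonneg _
        linarith

end Pool.Agent.H30.CP
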